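import Pool.Agent.K3h26.R6.Stm

/-!
# Project R6, bricks L2 and L4: the limit of separated groups is a tiling
-/

set_option autoImplicit false

open MeasureTheory Filter Topology Set
open scoped ENNReal

namespace Pool.Agent.K3h60.R6

open H947TP Pool.Agent.K3h26.R6

variable {p : ℕ}

theorem n1_cont : Continuous (n1 (p := p)) := by unfold n1; fun_prop
theorem ni_cont : Continuous (ni (p := p)) := by unfold ni; fun_prop
theorem my_cont : Continuous (my (p := p)) := by unfold my; fun_prop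
theorem yy_cont : Continuous (yy (p := p)) := by unfold yy; fun_prop
theorem nq_cont : Continuous (nq (p := p)) := by
  have := yy_cont (p := p)
  unfold nq
  fun_prop
theorem sy_cont : Continuous (sy (p := p)) := by
  unfold sy yy
  fun_prop
theorem rh_cont (lam : ℝ) : Continuous (rh (p := p) lam) := by
  have := my_cont (p := p)
  unfold rh
  fun_prop

theorem abs_le_nq (v : Fin (p + 5) → ℝ) (l : Fin (p + 2)) : |yy v l| ≤ nq v := by
  have h := norm_le_pi_norm (yy v) l
  rwa [Real.norm_eq_abs] at h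

theorem nq_lt {v : Fin (p + 5) → ℝ} {r : ℝ} (hr : 0 < r) (h : ∀ l, |yy v l| < r) : nq v < r := by
  unfold nq
  rw [pi_norm_lt_iff hr]
  intro l
  rw [Real.norm_eq_abs]
  exact h l

theorem nq_le {v : Fin (p + 5) → ℝ} {r : ℝ} (hr : 0 ≤ r) (h : ∀ l, |yy v l| ≤ r) : nq v ≤ r := by
  unfold nq
  rw [pi_norm_le_iff_of_nonneg hr]
  intro l
  rw [Real.norm_eq_abs]
  exact h l

theorem abs_le_ni (v : Fin (p + 5) → ℝ) : |v 0| ≤ ni v ∧ |v 1| ≤ ni v ∧ |v 2| ≤ ni v := by
  unfold ni
  exact ⟨le_max_left _ _, (le_max_left _ _).trans (le_max_right _ _),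
    (le_max_right _ _).trans (le_max_right _ _)⟩

/-- all coordinates -/
theorem all_coord (v : Fin (p + 5) → ℝ) (P : ℝ → Prop) (h0 : P (v 0)) (h1 : P (v 1)) (h2 : P (v 2))
    (h3 : ∀ l, P (yy v l)) : ∀ l, P (v l) := by
  intro l
  refine Fin.cases h0 (fun l => ?_) l
  refine Fin.cases ?_ (fun l => ?_) l
  · rw [Fin.succ_zero_eq_one]
    exact h1
  · refine Fin.cases ?_ (fun l => ?_) l
    · rw [Fin.succ_zero_eq_one, Fin.succ_one_eq_two]
      exact h2
    · exact h3 l

/-- brick L2 -/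
theorem t_L2 : S_L2 := by
  intro p lam ε Λ U _ _ hε hsep v hv hv0
  obtain ⟨vs, hvs, ht⟩ := hv
  by_contra hcon
  push Not at hcon
  obtain ⟨c1, c2, c3⟩ := hcon
  have t1 : Tendsto (fun m => n1 (vs m) / 3 + ε m * rh lam (vs m)) U
      (𝓝 (n1 v / 3 + 0 * rh lam v)) :=
    (((n1_cont.tendsto v).comp ht).div_const 3).add (hε.mul (((rh_cont lam).tendsto v).comp ht))
  have t2 : Tendsto (fun m => ni (vs m) / 2 + ε m * sy (vs m)) U
      (𝓝 (ni v / 2 + 0 * sy v)) :=
    (((ni_cont.tendsto v).comp ht).div_const 2).add (hε.mul ((sy_cont.tendsto v).comp ht))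
  have t3 : Tendsto (fun m => nq (vs m)) U (𝓝 (nq v)) := (nq_cont.tendsto v).comp ht
  have e1 := t1.eventually (gt_mem_nhds (show n1 v / 3 + 0 * rh lam v < 1 by linarith))
  have e2 := t2.eventually (gt_mem_nhds (show ni v / 2 + 0 * sy v < 1 by linarith))
  have e3 := t3.eventually (gt_mem_nhds c3)
  have e4 : ∀ᶠ m in (U : Filter ℕ), vs m ≠ 0 := ht.eventually_ne hv0
  obtain ⟨m, ⟨h1, h2⟩, h3, h4⟩ := ((e1.and e2).and (e3.and e4)).exists
  rcases hsep m (vs m) (hvs m) h4 with h | h | h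
  · linarith
  · linarith
  · linarith

theorem coord (v : Fin (p + 5) → ℝ) (h : 3 ≤ n1 v ∨ 2 ≤ ni v ∨ 1 ≤ nq v) : ∃ l, 1 ≤ |v l| := by
  by_contra hcon
  push Not at hcon
  have h0 := hcon 0
  have h1 := hcon 1
  have h2 := hcon 2
  rcases h with h | h | h
  · unfold n1 at h
    linarith
  · have : ni v < 2 := by
      unfold ni
      rw [max_lt_iff, max_lt_iff]
      refine ⟨?_, ?_, ?_⟩ <;> linarith
    linarith
  · have : nq v < 1 := nq_lt one_pos fun l => hcon _
    linarith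

/-- the closed condition with a tolerance -/
def Cl (x0 : Fin (p + 5) → ℝ) (r : ℝ) (v : Fin (p + 5) → ℝ) : Prop :=
  n1 (x0 - v) ≤ 3 / 2 + 3 * r ∧ ni (x0 - v) ≤ 1 + r ∧ nq (x0 - v) ≤ 1 / 2 + r

theorem Cl_of {x0 y v : Fin (p + 5) → ℝ} {r : ℝ} (hy : ∀ l, |y l - x0 l| < r)
    (h : y - v ∈ Pt p 1) : Cl x0 r v := by
  obtain ⟨h1, h2, h3⟩ := h
  have key : ∀ l, |(x0 - v) l| ≤ |(y - v) l| + r := by
    intro l
    have e : (x0 - v) l = (y - v) l - (y l - x0 l) := by
      simp only [Pi.sub_apply]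
      ring
    rw [e]
    have := abs_sub (y l - v l) (y l - x0 l)
    simp only [Pi.sub_apply]
    linarith [(hy l).le]
  have a0 := key 0
  have a1 := key 1
  have a2 := key 2
  obtain ⟨b0, b1, b2⟩ := abs_le_ni (y - v)
  have hr : 0 < r := (abs_nonneg _).trans_lt (hy 0)
  refine ⟨?_, ?_, ?_⟩
  · unfold n1 at h1 ⊢
    linarith
  · unfold ni
    rw [max_le_iff, max_le_iff]
    refine ⟨?_, ?_, ?_⟩ <;> linarith
  · refine nq_le (by linarith) fun l => ?_
    have a3 : |yy (x0 - v) l| ≤ |yy (y - v) l| + r := key l.succ.succ.succ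
    have b3 := abs_le_nq (y - v) l
    linarith

theorem Cl_bd {x0 v : Fin (p + 5) → ℝ} {r : ℝ} (hr : r < 1 / 4) (h : Cl x0 r v)
    (l : Fin (p + 5)) : |v l| ≤ |x0 l| + 2 := by
  obtain ⟨-, h2, h3⟩ := h
  obtain ⟨b0, b1, b2⟩ := abs_le_ni (x0 - v)
  have hall : ∀ l, |(x0 - v) l| ≤ 2 := by
    refine all_coord (x0 - v) (fun t => |t| ≤ 2) ?_ ?_ ?_ fun l => ?_
    · linarith
    · linarith
    · linarith
    · have b3 := abs_le_nq (x0 - v) l
      linarith
  have e : |v l| ≤ |x0 l| + |(x0 - v) l| := by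
    have := abs_sub (x0 l) ((x0 - v) l)
    have e2 : x0 l - (x0 - v) l = v l := by simp
    rwa [e2] at this
  have := hall l
  linarith

theorem L4main (hL1 : S_L1) (hVOLP : S_VOLP) (hL3 : St_L3) : S_L4 := by
  intro p lam G ε Λ U hlam hlam1 hG hε hεU hsep hF x0
  by_contra hno
  push Not at hno
  have hs : ∀ v ∈ Lim U Λ, v ≠ 0 → ∃ l, 1 ≤ |v l| := fun v hv hv0 =>
    coord v (t_L2 p lam ε Λ U hlam hlam1 hεU hsep v hv hv0)
  -- step 1: the tolerance
  set R : ℝ := (∑ l, |x0 l|) + 2 with hR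
  have hfin := L4aux.finite_box (Lim U Λ) hs R
  have htol : ∀ᶠ r in 𝓝 (0 : ℝ), ∀ v ∈ {v : Fin (p + 5) → ℝ | v ∈ Lim U Λ ∧ ∀ l, |v l| ≤ R},
      ¬ Cl x0 r v := by
    rw [Filter.eventually_all_finite hfin]
    intro v hv
    have h1 := hno v hv.1
    by_cases hv1 : n1 (x0 - v) ≤ 3 / 2
    · by_cases hv2 : ni (x0 - v) ≤ 1
      · have h2 := h1 hv1 hv2
        have h3 : ∀ᶠ r in 𝓝 (0 : ℝ), r < nq (x0 - v) - 1 / 2 := Iio_mem_nhds (by linarith)
        filter_upwards [h3] with r hr h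
        have := h.2.2
        linarith
      · push Not at hv2
        have h3 : ∀ᶠ r in 𝓝 (0 : ℝ), r < ni (x0 - v) - 1 := Iio_mem_nhds (by linarith)
        filter_upwards [h3] with r hr h
        have := h.2.1
        linarith
    · push Not at hv1
      have h3 : ∀ᶠ r in 𝓝 (0 : ℝ), r < (n1 (x0 - v) - 3 / 2) / 3 := Iio_mem_nhds (by linarith)
      filter_upwards [h3] with r hr h
      have := h.1
      linarith
  obtain ⟨r, hr0, hr1, hrt⟩ : ∃ r : ℝ, 0 < r ∧ r < 1 / 100 ∧
      ∀ v ∈ {v : Fin (p + 5) → ℝ | v ∈ Lim U Λ ∧ ∀ l, |v l| ≤ R}, ¬ Cl x0 r v := by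
    have h1 := htol.filter_mono (nhdsWithin_le_nhds (s := Ioi (0 : ℝ)))
    have h2 : ∀ᶠ r in 𝓝 (0 : ℝ), r < 1 / 100 := Iio_mem_nhds (by norm_num)
    have h2' := h2.filter_mono (nhdsWithin_le_nhds (s := Ioi (0 : ℝ)))
    have h3 : ∀ᶠ r in 𝓝[>] (0 : ℝ), 0 < r := self_mem_nhdsWithin
    obtain ⟨r, h⟩ := (h1.and (h2'.and h3)).exists
    exact ⟨r, h.2.2, h.2.1, h.1⟩
  -- step 2: the small cube is not met by the tiles of `Λ m`
  have hclaim : ∀ᶠ m in (U : Filter ℕ), ∀ v ∈ Λ m, ∀ y : Fin (p + 5) → ℝ,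
      (∀ l, |y l - x0 l| < r) → y - v ∉ Pt p 1 := by
    by_contra hcon
    rw [← Ultrafilter.eventually_not] at hcon
    have hcon' : ∀ᶠ m in (U : Filter ℕ), ∃ v : Fin (p + 5) → ℝ, v ∈ Λ m ∧ Cl x0 r v := by
      filter_upwards [hcon] with m hm
      push Not at hm
      obtain ⟨v, hv, y, hy, hvy⟩ := hm
      exact ⟨v, hv, Cl_of hy hvy⟩
    classical
    let w : ℕ → Fin (p + 5) → ℝ := fun m =>
      if h : ∃ v : Fin (p + 5) → ℝ, v ∈ Λ m ∧ Cl x0 r v then h.choose else 0
    have hw : ∀ᶠ m in (U : Filter ℕ), w m ∈ Λ m ∧ Cl x0 r (w m) := by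
      filter_upwards [hcon'] with m hm
      simp only [w, dif_pos hm]
      exact hm.choose_spec
    have hx0 : ∀ l, |x0 l| ≤ ∑ l, |x0 l| := fun l =>
      Finset.single_le_sum (fun i _ => abs_nonneg (x0 i)) (Finset.mem_univ l)
    have hbd : ∀ᶠ m in (U : Filter ℕ), w m ∈ Λ m ∧ ∀ l, |w m l| ≤ R := by
      filter_upwards [hw] with m hm
      refine ⟨hm.1, fun l => ?_⟩
      have h1 := Cl_bd (by linarith) hm.2 l
      have h3 := hx0 l
      linarith
    obtain ⟨x, hx, hlim⟩ := hL3 (p + 5) Λ U R w hbd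
    have hc : ∀ l, Tendsto (fun m => w m l) U (𝓝 (x l)) :=
      fun l => (tendsto_pi_nhds.mp hlim) l
    have hxR : ∀ l, |x l| ≤ R := fun l =>
      le_of_tendsto (hc l).abs (hbd.mono (fun m hm => hm.2 l))
    have hsub : Tendsto (fun m => x0 - w m) U (𝓝 (x0 - x)) := tendsto_const_nhds.sub hlim
    refine hrt x ⟨hx, hxR⟩ ⟨?_, ?_, ?_⟩
    · exact le_of_tendsto ((n1_cont.tendsto _).comp hsub) (hw.mono fun m hm => hm.2.1)
    · exact le_of_tendsto ((ni_cont.tendsto _).comp hsub) (hw.mono fun m hm => hm.2.2.1)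
    · exact le_of_tendsto ((nq_cont.tendsto _).comp hsub) (hw.mono fun m hm => hm.2.2.2)
  -- step 3: choose `m`
  have hev : ∀ᶠ m in (U : Filter ℕ), ε m < 1 / 10 := hεU (Iio_mem_nhds (by norm_num))
  have hev2 : ∀ᶠ m in (U : Filter ℕ), 4 < 4 * (1 - 2 * ε m) ^ (p + 5) + (2 * r) ^ (p + 5) := by
    have ht : Tendsto (fun m => 4 * (1 - 2 * ε m) ^ (p + 5) + (2 * r) ^ (p + 5)) U
        (𝓝 (4 * (1 - 2 * 0) ^ (p + 5) + (2 * r) ^ (p + 5))) :=
      (((tendsto_const_nhds.sub (hεU.const_mul 2)).pow (p + 5)).const_mul 4).add tendsto_const_nhds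
    refine ht (Ioi_mem_nhds ?_)
    have h5 : 0 < (2 * r) ^ (p + 5) := by positivity
    simp only [mul_zero, sub_zero, one_pow]
    linarith
  obtain ⟨m, hm1, hm2, hm3⟩ := (hclaim.and (hev.and hev2)).exists
  have hεm := hε m
  obtain ⟨-, F, hFm, hFQ, hFs, hFd, -⟩ :=
    hL1 p lam (ε m) (Λ m) hlam hlam1 hεm hm2.le (hsep m)
  set B : Set (Fin (p + 5) → ℝ) := Set.pi univ (fun l => Ioo (x0 l - r) (x0 l + r)) with hB
  have hBm : ∀ y, y ∈ B → ∀ l, |y l - x0 l| < r := by
    intro y hy l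
    have h := hy l (mem_univ l)
    rw [abs_lt]
    constructor <;> linarith [h.1, h.2]
  have hBmeas : MeasurableSet B := MeasurableSet.univ_pi (fun l => measurableSet_Ioo)
  have hdisj : Disjoint F B := by
    rw [Set.disjoint_left]
    intro y hy hyB
    refine hm1 0 (Λ m).zero_mem y (hBm y hyB) ?_
    rw [sub_zero]
    exact hFQ hy
  have hvol : ENNReal.ofReal (4 - G * ε m) ≤ volume (F ∪ B) := by
    rw [measure_union hdisj hBmeas]
    have h1 : ENNReal.ofReal (4 * (1 - 2 * ε m) ^ (p + 5)) ≤ volume F :=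
      (hVOLP p (1 - 2 * ε m) (by linarith)).trans (measure_mono hFs)
    have h3 : ENNReal.ofReal ((2 * r) ^ (p + 5)) ≤ volume B := by
      rw [hB, Real.volume_pi_Ioo]
      have h4 : ∀ l : Fin (p + 5), x0 l + r - (x0 l - r) = 2 * r := fun l => by ring
      simp only [h4, Finset.prod_const, Finset.card_univ, Fintype.card_fin]
      rw [ENNReal.ofReal_pow (by linarith)]
    have h5 : (0 : ℝ) ≤ 4 * (1 - 2 * ε m) ^ (p + 5) :=
      mul_nonneg (by norm_num) (pow_nonneg (by linarith) _)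
    have h6 : (0 : ℝ) ≤ (2 * r) ^ (p + 5) := by positivity
    have h7 : 0 ≤ G * ε m := by positivity
    calc ENNReal.ofReal (4 - G * ε m)
        ≤ ENNReal.ofReal (4 * (1 - 2 * ε m) ^ (p + 5) + (2 * r) ^ (p + 5)) :=
          ENNReal.ofReal_le_ofReal (by linarith)
      _ = ENNReal.ofReal (4 * (1 - 2 * ε m) ^ (p + 5)) + ENNReal.ofReal ((2 * r) ^ (p + 5)) :=
          ENNReal.ofReal_add h5 h6
      _ ≤ _ := add_le_add h1 h3
  refine absurd (hF m (F ∪ B) (hFm.union hBmeas) ?_ ?_) (not_lt.mpr hvol)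
  · -- bounded
    apply Bornology.IsBounded.union
    · refine (Metric.isBounded_Icc (fun _ => (-2 : ℝ)) (fun _ => (2 : ℝ))).subset ?_
      intro y hy
      obtain ⟨-, h2, h3⟩ := hFQ hy
      obtain ⟨b0, b1, b2⟩ := abs_le_ni y
      have h : ∀ l : Fin (p + 5), |y l| ≤ 2 := by
        refine all_coord y (fun t => |t| ≤ 2) ?_ ?_ ?_ fun l => ?_
        · linarith
        · linarith
        · linarith
        · have b3 := abs_le_nq y l
          linarith
      exact ⟨fun l => (abs_le.1 (h l)).1, fun l => (abs_le.1 (h l)).2⟩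
    · refine (Metric.isBounded_Icc (fun l => x0 l - r) (fun l => x0 l + r)).subset ?_
      intro y hy
      exact ⟨fun l => (hy l (mem_univ l)).1.le, fun l => (hy l (mem_univ l)).2.le⟩
  · -- disjointness
    intro v hv hv0
    rw [Set.disjoint_left]
    rintro z hz ⟨y, hy, rfl⟩
    rcases hz with hz | hz
    · rcases hy with hy | hy
      · exact Set.disjoint_left.mp (hFd v hv hv0) hz ⟨y, hy, rfl⟩
      · refine hm1 (-v) ((Λ m).neg_mem hv) y (hBm y hy) ?_
        have e : y - -v = v + y := by rw [sub_neg_eq_add, add_comm y v]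
        rw [e]
        exact hFQ hz
    · rcases hy with hy | hy
      · refine hm1 v hv _ (hBm _ hz) ?_
        have e : v + y - v = y := by rw [add_sub_cancel_left]
        have e' : (fun z => v + z) y - v = y := e
        rw [e']
        exact hFQ hy
      · -- both in the small cube: then `v` is short
        have hvs : ∀ l, |v l| < 2 * r := by
          intro l
          have h1 := abs_lt.mp (hBm _ hz l)
          have h2 := abs_lt.mp (hBm _ hy l)
          simp only [Pi.add_apply] at h1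
          rw [abs_lt]
          constructor <;> linarith [h1.1, h1.2, h2.1, h2.2]
        have v0 := hvs 0
        have v1 := hvs 1
        have v2 := hvs 2
        have hni : ni v < 2 * r := by
          unfold ni
          rw [max_lt_iff, max_lt_iff]
          exact ⟨v0, v1, v2⟩
        have h2r : 0 < 2 * r := by linarith
        have hnq : nq v < 2 * r := nq_lt h2r fun l => hvs _
        have hmy : my v < 2 * r := by
          unfold my
          rw [max_lt_iff]
          exact ⟨hvs 3, hvs 4⟩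
        have hmy0 : 0 ≤ my v := (abs_nonneg _).trans (le_max_left _ _)
        rcases hsep m v hv hv0 with h | h | h
        · have h1 : rh lam v ≤ 1 := by
            unfold rh
            nlinarith
          have h2 : ε m * rh lam v ≤ 1 / 10 := by nlinarith
          unfold n1 at h
          linarith
        · have h1 : sy v ≤ 1 := by
            unfold sy
            have hp : (0 : ℝ) < (p : ℝ) + 2 := by positivity
            rw [div_le_one hp]
            have h4 : ∑ l, |yy v l| ≤ ∑ _l : Fin (p + 2), (1 : ℝ) :=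
              Finset.sum_le_sum fun l _ => by
                have := hvs l.succ.succ.succ
                show |v l.succ.succ.succ| ≤ 1
                linarith
            simpa using h4
          have h2 : ε m * sy v ≤ 1 / 10 := by nlinarith
          linarith
        · linarith

/-- brick L4 -/
theorem t_L4 (hL1 : S_L1) (hVOLP : S_VOLP) : S_L4 := L4main hL1 hVOLP L3

end Pool.Agent.K3h60.R6
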